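import Mathlib
import Pool.Agent.LibMST.Trees
import Pool.Agent.LibMC91.Sig

set_option autoImplicit false
set_option linter.unusedSectionVars false

/-! Counting the subtrees of a graph which contain a given vertex. -/

namespace Pool.Agent.LibOM4

open Finset Pool.Agent.LibMST Pool.Agent.LibMSB Pool.Agent.LibOC52 Pool.Agent.LibMC91

variable {V : Type*} [Fintype V] [DecidableEq V]

theorem mem_rt_univ {E : Finset (Sym2 V)} {x : V} {p : Finset V × Finset (Sym2 V)} :
    p ∈ rt univ E x ↔ (p.2 ⊆ E ∧ ∃ r, Grow r p.1 p.2) ∧ x ∈ p.1 := by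
  rw [mem_rt]
  exact ⟨fun h => ⟨h.1.1, h.2⟩, fun h => ⟨⟨h.1, subset_univ _⟩, h.2⟩⟩

theorem card_subtrees_at (G : SimpleGraph V) (E : Finset (Sym2 V))
    (hE : ∀ e, e ∈ E ↔ e ∈ G.edgeSet) (x : V) (k : ℕ) :
    Nat.card {H : G.Subgraph // H.coe.IsTree ∧ x ∈ H.verts ∧ Nat.card H.verts = k} =
      ((rt univ E x).filter (fun p => p.1.card = k)).card := by
  classical
  rw [← Nat.card_eq_finsetCard]
  let f : {H : G.Subgraph // H.coe.IsTree ∧ x ∈ H.verts ∧ Nat.card H.verts = k} →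
      ((rt univ E x).filter (fun p => p.1.card = k)) := fun H =>
    ⟨((Set.toFinite H.1.verts).toFinset, (Set.toFinite H.1.edgeSet).toFinset), by
      rw [mem_filter, mem_rt_univ]
      refine ⟨⟨⟨?_, ?_⟩, ?_⟩, ?_⟩
      · intro e he
        rw [Set.Finite.mem_toFinset] at he
        rw [hE]
        exact H.1.edgeSet_subset he
      · exact grow_of_tree G H.1 H.2.1 _ _ (Set.Finite.coe_toFinset _) (Set.Finite.coe_toFinset _)
      · rw [Set.Finite.mem_toFinset]
        exact H.2.2.1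
      · rw [← Set.ncard_eq_toFinset_card]
        exact H.2.2.2⟩
  refine Nat.card_congr (Equiv.ofBijective f ⟨?_, ?_⟩)
  · rintro ⟨H, hH⟩ ⟨K, hK⟩ hHK
    simp only [f, Subtype.mk.injEq, Prod.mk.injEq, Set.Finite.toFinset_inj] at hHK
    obtain ⟨h1, h2⟩ := hHK
    apply Subtype.ext
    apply SimpleGraph.Subgraph.ext h1
    funext a b
    apply propext
    rw [← SimpleGraph.Subgraph.mem_edgeSet, ← SimpleGraph.Subgraph.mem_edgeSet, h2]
  · rintro ⟨⟨C, F⟩, hp⟩
    rw [mem_filter, mem_rt_univ] at hp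
    obtain ⟨⟨⟨hF, r, hg⟩, hx⟩, hk⟩ := hp
    obtain ⟨H, hH, hv, he⟩ := tree_of_grow G hg (fun e he => (hE e).mp (hF he))
    refine ⟨⟨H, hH, ?_, ?_⟩, ?_⟩
    · rw [hv]
      exact_mod_cast hx
    · rw [hv]
      simpa using hk
    · apply Subtype.ext
      simp only [f, Prod.mk.injEq]
      constructor
      · ext z; rw [Set.Finite.mem_toFinset, hv, mem_coe]
      · ext z; rw [Set.Finite.mem_toFinset, he, mem_coe]

private theorem card_Icc {E : Finset (Sym2 V)} {x : V} {p : Finset V × Finset (Sym2 V)}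
    (hp : p ∈ rt univ E x) : p.1.card ∈ Finset.Icc 1 (Fintype.card V) := by
  rw [mem_rt_univ] at hp
  rw [Finset.mem_Icc]
  exact ⟨card_pos.mpr ⟨x, hp.2⟩, card_le_univ _⟩

theorem loc_count (G : SimpleGraph V) (E : Finset (Sym2 V))
    (hE : ∀ e, e ∈ E ↔ e ∈ G.edgeSet) (x : V) :
    (∑ k ∈ Finset.Icc 1 (Fintype.card V), (Nat.card {H : G.Subgraph // H.coe.IsTree ∧ x ∈ H.verts ∧
      Nat.card H.verts = k} : ℚ)) = (nr univ E x : ℚ) := by
  classical
  simp only [card_subtrees_at G E hE x]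
  unfold nr
  rw [card_eq_sum_card_fiberwise (f := fun p : Finset V × Finset (Sym2 V) => p.1.card)
    (s := rt univ E x) (t := Finset.Icc 1 (Fintype.card V)) (fun p hp => card_Icc hp)]
  push_cast
  rfl

theorem loc_order (G : SimpleGraph V) (E : Finset (Sym2 V))
    (hE : ∀ e, e ∈ E ↔ e ∈ G.edgeSet) (x : V) :
    (∑ k ∈ Finset.Icc 1 (Fintype.card V), (k : ℚ) * (Nat.card {H : G.Subgraph // H.coe.IsTree ∧
      x ∈ H.verts ∧ Nat.card H.verts = k} : ℚ)) = (sr univ E x : ℚ) := by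
  classical
  simp only [card_subtrees_at G E hE x]
  unfold sr
  rw [← sum_fiberwise_of_maps_to (g := fun p : Finset V × Finset (Sym2 V) => p.1.card)
    (s := rt univ E x) (t := Finset.Icc 1 (Fintype.card V)) (fun p hp => card_Icc hp)]
  push_cast
  apply sum_congr rfl
  intro k _
  have h1 : ∀ p ∈ (rt univ E x).filter (fun p => p.1.card = k), (p.1.card : ℚ) = (k : ℚ) := by
    intro p hp
    rw [(mem_filter.mp hp).2]
  rw [sum_congr rfl h1, sum_const, nsmul_eq_mul, mul_comm]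

end Pool.Agent.LibOM4
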